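import Pool.Agent.W610.HY.Stm

/-!
Project HY, part CIRC: an area-integrable function is integrable on some small circle.
-/

set_option autoImplicit false

namespace Pool.Agent.W15.HY.CIRC

open Pool.Agent.W610.HY
open MeasureTheory Set Metric Filter Topology

/-- shift of the period interval -/
theorem shift (f : ℝ → ENNReal) (hf : Function.Periodic f (2 * Real.pi)) :
    (∫⁻ θ in Ioc (0:ℝ) (2 * Real.pi), f θ) = ∫⁻ θ in Ioo (-Real.pi) Real.pi, f θ := by
  have hT : 0 < 2 * Real.pi := by positivity
  have h1 := isAddFundamentalDomain_Ioc hT 0 volume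
  have h2 := isAddFundamentalDomain_Ioc hT (-Real.pi) volume
  have h3 := h1.setLIntegral_eq h2 f ?_
  · rw [zero_add] at h3
    have e : -Real.pi + 2 * Real.pi = Real.pi := by ring
    rw [e] at h3
    rw [h3, setLIntegral_congr Ioo_ae_eq_Ioc]
  · rintro ⟨g, hg⟩ x
    obtain ⟨n, rfl⟩ := AddSubgroup.mem_zmultiples_iff.mp hg
    change f (n • (2 * Real.pi) + x) = f x
    rw [add_comm]
    exact hf.zsmul n x

theorem main : CIRC := by
  intro m hm c ρ hρ hfin
  set g : ℂ → ENNReal := (ball (0:ℂ) ρ).indicator (fun z => m (c + z)) with hg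
  have hgm : Measurable g := (hm.comp (measurable_const_add c)).indicator measurableSet_ball
  have h1 : ∫⁻ z, g z ≠ ⊤ := by
    have : ∫⁻ z, g z = ∫⁻ z in ball c ρ, m z := by
      rw [← lintegral_indicator measurableSet_ball,
        ← lintegral_add_left_eq_self ((ball c ρ).indicator fun a => m a) c]
      congr 1
      ext z
      simp [g, indicator, mem_ball, dist_eq_norm]
    rw [this]
    exact hfin
  have hcont : Continuous fun p : ℝ × ℝ => Complex.polarCoord.symm p := by
    simp only [Complex.polarCoord_symm_apply]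
    fun_prop
  have hmeas : Measurable fun p : ℝ × ℝ => ENNReal.ofReal p.1 • g (Complex.polarCoord.symm p) := by
    simp only [smul_eq_mul]
    exact (ENNReal.measurable_ofReal.comp measurable_fst).mul (hgm.comp hcont.measurable)
  have h2 := Complex.lintegral_comp_polarCoord_symm g
  rw [polarCoord_target, Measure.volume_eq_prod, ← Measure.prod_restrict,
    lintegral_prod _ hmeas.aemeasurable] at h2
  rw [← h2] at h1
  have h3 := ae_lt_top (hmeas.lintegral_prod_right' (ν := volume.restrict (Ioo (-Real.pi) Real.pi))) h1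
  have h4 : ∃ r ∈ Ioo (0:ℝ) ρ, ∫⁻ y in Ioo (-Real.pi) Real.pi,
      ENNReal.ofReal r • g (Complex.polarCoord.symm (r, y)) < ⊤ := by
    by_contra hcon
    push Not at hcon
    rw [ae_restrict_iff' measurableSet_Ioi, ae_iff] at h3
    have h5 : volume (Ioo (0:ℝ) ρ) = 0 := by
      refine measure_mono_null ?_ h3
      intro r hr
      simp only [mem_ofPred_eq, Classical.not_imp]
      exact ⟨hr.1, fun h => absurd h (not_lt.mpr (hcon r hr))⟩
    rw [Real.volume_Ioo] at h5
    simp only [sub_zero, ENNReal.ofReal_eq_zero] at h5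
    linarith
  obtain ⟨r, hr, h5⟩ := h4
  refine ⟨r, hr.1, hr.2, ?_⟩
  rw [shift (fun θ => m (circleMap c r θ)) (fun θ => by
    show m (circleMap c r (θ + 2 * Real.pi)) = _
    rw [periodic_circleMap c r θ])]
  have h6 : ∀ y : ℝ, g (Complex.polarCoord.symm (r, y)) = m (circleMap c r y) := by
    intro y
    have e1 : Complex.polarCoord.symm (r, y) = r * Complex.exp (y * Complex.I) := by
      rw [Complex.polarCoord_symm_apply, Complex.exp_mul_I]
      simp
    rw [e1]
    have e2 : (r : ℂ) * Complex.exp (y * Complex.I) ∈ ball (0:ℂ) ρ := by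
      rw [mem_ball, dist_zero_right, norm_mul, Complex.norm_exp_ofReal_mul_I, mul_one,
        Complex.norm_real, Real.norm_eq_abs, abs_of_pos hr.1]
      exact hr.2
    rw [hg, indicator_of_mem e2]
    rfl
  have h7 : ∀ y : ℝ, ENNReal.ofReal r • g (Complex.polarCoord.symm (r, y)) =
      ENNReal.ofReal r * m (circleMap c r y) := fun y => by rw [h6, smul_eq_mul]
  simp only [h7] at h5
  rw [lintegral_const_mul' _ _ ENNReal.ofReal_ne_top] at h5
  intro htop
  rw [htop, ENNReal.mul_top] at h5
  · exact lt_irrefl _ h5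
  · exact (ENNReal.ofReal_pos.mpr hr.1).ne'

end Pool.Agent.W15.HY.CIRC
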